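import Pool.Agent.N784.CZ.StmE
import Pool.Agent.H370R2.Local

/-!
# Project CE (helper784), part F2: a crude bound for the number of zeros (helper768)
-/

set_option autoImplicit false

open Complex MeasureTheory Set

namespace Pool.Agent.N768.CZ

open Pool.Agent.N784.CZ

/-- Jensen's inequality in the disc around `2 + i j` -/
theorem disc_bound {f : ℂ → ℂ} {C m : ℝ} (hf : Differentiable ℂ f) (hm : 0 < m)
    (hlow : ∀ s : ℂ, s.re = 2 → m ≤ ‖f s‖)
    (hup : ∀ s : ℂ, -2 ≤ s.re → s.re ≤ 6 → ‖f s‖ ≤ Real.exp (C * (1 + |s.im|))) (j : ℤ)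
    (S : Finset ℂ) (hS : ∀ z ∈ S, z ∈ Metric.closedBall (⟨2, j⟩ : ℂ) (5 / 2)) :
    ∑ z ∈ S, (analyticOrderNatAt f z : ℝ) ≤
      (|C| * (4 + |(j : ℝ)|) + |Real.log m|) / Real.log (6 / 5) := by
  have hM : 1 ≤ Real.exp (|C| * (4 + |(j : ℝ)|)) := Real.one_le_exp (by positivity)
  have hfc : m ≤ ‖f (⟨2, j⟩ : ℂ)‖ := hlow _ rfl
  have hfc0 : 0 < ‖f (⟨2, j⟩ : ℂ)‖ := lt_of_lt_of_le hm hfc
  have h1 := H370.Loc.jensen_mult (f := f) (c := (⟨2, j⟩ : ℂ)) (r := 5 / 2) (R := 3)
    (M := Real.exp (|C| * (4 + |(j : ℝ)|))) (by norm_num) (by norm_num) hM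
    (fun s _ => hf.analyticAt s) (norm_pos_iff.1 hfc0) (by
      intro s hs
      rw [Metric.mem_closedBall, dist_eq_norm] at hs
      have h2 : |s.re - 2| ≤ 3 := by
        have := Complex.abs_re_le_norm (s - (⟨2, j⟩ : ℂ))
        rw [Complex.sub_re] at this
        exact this.trans hs
      have h3 : |s.im - j| ≤ 3 := by
        have := Complex.abs_im_le_norm (s - (⟨2, j⟩ : ℂ))
        rw [Complex.sub_im] at this
        exact this.trans hs
      have h4 := abs_le.1 h2
      have h5 : |s.im| ≤ |(j : ℝ)| + 3 := by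
        have := abs_add_le (s.im - j) (j : ℝ)
        rw [sub_add_cancel] at this
        linarith
      refine (hup s (by linarith) (by linarith)).trans (Real.exp_le_exp.2 ?_)
      have h6 : C * (1 + |s.im|) ≤ |C| * (1 + |s.im|) :=
        mul_le_mul_of_nonneg_right (le_abs_self C) (by positivity)
      refine h6.trans (mul_le_mul_of_nonneg_left ?_ (abs_nonneg C))
      linarith) S hS
  have hlog : 0 < Real.log (6 / 5) := Real.log_pos (by norm_num)
  have e1 : (3 : ℝ) / (5 / 2) = 6 / 5 := by norm_num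
  rw [e1] at h1
  refine (le_of_eq ?_).trans (h1.trans ?_)
  · rfl
  · refine div_le_div_of_nonneg_right ?_ hlog.le
    rw [Real.log_div (Real.exp_pos _).ne' hfc0.ne', Real.log_exp]
    have h2 : Real.log m ≤ Real.log ‖f (⟨2, j⟩ : ℂ)‖ := Real.log_le_log hm hfc
    have h3 := neg_abs_le (Real.log m)
    linarith

theorem finite_zeros {f : ℂ → ℂ} (hf : Differentiable ℂ f) (h2 : f 2 ≠ 0) (T : ℝ) :
    {s : ℂ | 0 < s.re ∧ s.re < 1 ∧ |s.im| ≤ 2 * T ∧ f s = 0}.Finite := by
  by_contra hinf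
  have hinf : {s : ℂ | 0 < s.re ∧ s.re < 1 ∧ |s.im| ≤ 2 * T ∧ f s = 0}.Infinite := hinf
  have hcomp : IsCompact (Metric.closedBall (0 : ℂ) (1 + |2 * T|)) := isCompact_closedBall _ _
  have hsub : {s : ℂ | 0 < s.re ∧ s.re < 1 ∧ |s.im| ≤ 2 * T ∧ f s = 0} ⊆
      Metric.closedBall (0 : ℂ) (1 + |2 * T|) := by
    rintro s ⟨h3, h4, h5, -⟩
    rw [Metric.mem_closedBall, dist_zero_right]
    refine (Complex.norm_le_abs_re_add_abs_im s).trans ?_
    have h6 : |s.re| ≤ 1 := by
      rw [abs_of_pos h3]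
      exact h4.le
    have h7 : |s.im| ≤ |2 * T| := h5.trans (le_abs_self _)
    linarith
  obtain ⟨x, hx, hacc⟩ := hinf.exists_accPt_of_subset_isCompact hcomp hsub
  have hfreq : ∃ᶠ y in nhdsWithin x {x}ᶜ, f y = 0 := by
    rw [accPt_iff_frequently_nhdsNE] at hacc
    exact hacc.mono fun y hy => hy.2.2.2
  have hz := AnalyticOnNhd.eqOn_zero_of_preconnected_of_frequently_eq_zero
    (f := f) (U := Set.univ) (fun s _ => hf.analyticAt s) isPreconnected_univ (Set.mem_univ x) hfreq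
  exact h2 (hz (Set.mem_univ 2))

theorem t_cru : StCru := by
  intro f C m hf hm hlow hup
  have hlog : 0 < Real.log (6 / 5) := Real.log_pos (by norm_num)
  have hf2 : f 2 ≠ 0 := by
    have h1 := hlow 2 (by norm_num)
    exact norm_pos_iff.1 (lt_of_lt_of_le hm h1)
  refine ⟨9 * ((8 * |C| + |Real.log m|) / Real.log (6 / 5)), fun T hT => ?_⟩
  have hfin := finite_zeros hf hf2 T
  refine ⟨hfin, ?_⟩
  rw [finsum_mem_eq_finite_toFinset_sum _ hfin]
  obtain ⟨n, hn⟩ : ∃ n : ℕ, n = ⌈2 * T⌉₊ + 1 := ⟨_, rfl⟩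
  have hn1 : 2 * T + 1 ≤ n := by
    rw [hn]
    push_cast
    linarith [Nat.le_ceil (2 * T)]
  have hn2 : (n : ℝ) ≤ 4 * T := by
    rw [hn]
    push_cast
    linarith [Nat.ceil_lt_add_one (show 0 ≤ 2 * T by linarith)]
  have hmaps : ∀ s ∈ hfin.toFinset, round s.im ∈ Finset.Icc (-(n : ℤ)) n := by
    intro s hs
    rw [Set.Finite.mem_toFinset] at hs
    have h1 := abs_le.1 (abs_sub_round s.im)
    have h2 := abs_le.1 hs.2.2.1
    rw [Finset.mem_Icc]
    constructor
    · have h3 : (-(n : ℝ)) ≤ (round s.im : ℝ) := by linarith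
      exact_mod_cast h3
    · have h3 : (round s.im : ℝ) ≤ (n : ℝ) := by linarith
      exact_mod_cast h3
  rw [← Finset.sum_fiberwise_of_maps_to hmaps]
  have hterm : ∀ j ∈ Finset.Icc (-(n : ℤ)) n,
      ∑ s ∈ hfin.toFinset.filter (fun s : ℂ => round s.im = j), (analyticOrderNatAt f s : ℝ) ≤
        (8 * |C| + |Real.log m|) / Real.log (6 / 5) * T := by
    intro j hj
    refine (disc_bound hf hm hlow hup j _ fun s hs => ?_).trans ?_
    · rw [Finset.mem_filter, Set.Finite.mem_toFinset] at hs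
      obtain ⟨⟨h1, h2, h3, -⟩, rfl⟩ := hs
      rw [Metric.mem_closedBall, dist_eq_norm]
      have h4 := abs_sub_round s.im
      have h5 : ‖s - (⟨2, (round s.im : ℝ)⟩ : ℂ)‖ ^ 2 ≤ (5 / 2) ^ 2 := by
        rw [Complex.sq_norm, Complex.normSq_apply, Complex.sub_re, Complex.sub_im]
        show (s.re - 2) * (s.re - 2) + (s.im - round s.im) * (s.im - round s.im) ≤ _
        have h6 : (s.im - round s.im) * (s.im - round s.im) ≤ 1 / 4 := by
          rw [← abs_mul_abs_self]
          nlinarith [abs_nonneg (s.im - round s.im)]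
        nlinarith
      exact abs_le_of_sq_le_sq' h5 (by norm_num) |>.2
    · rw [div_mul_eq_mul_div]
      refine div_le_div_of_nonneg_right ?_ hlog.le
      have h1 : |(j : ℝ)| ≤ 4 * T := by
        rw [Finset.mem_Icc] at hj
        have h2 : |(j : ℝ)| ≤ n := by
          rw [abs_le]
          constructor
          · exact_mod_cast hj.1
          · exact_mod_cast hj.2
        linarith
      have h3 : |C| * (4 + |(j : ℝ)|) ≤ |C| * (8 * T) :=
        mul_le_mul_of_nonneg_left (by linarith) (abs_nonneg C)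
      have h4 : |Real.log m| ≤ |Real.log m| * T := by
        nlinarith [abs_nonneg (Real.log m)]
      nlinarith
  refine (Finset.sum_le_card_nsmul _ _ _ hterm).trans ?_
  have hcard : ((Finset.Icc (-(n : ℤ)) n).card : ℝ) ≤ 9 * T := by
    rw [Int.card_Icc]
    have h1 : ((n : ℤ) + 1 - -(n : ℤ)).toNat = 2 * n + 1 := by omega
    rw [h1]
    push_cast
    linarith
  rw [nsmul_eq_mul]
  have h1 : 0 ≤ (8 * |C| + |Real.log m|) / Real.log (6 / 5) := by positivity
  have h2 : 0 ≤ (8 * |C| + |Real.log m|) / Real.log (6 / 5) * T := mul_nonneg h1 (by linarith)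
  calc ((Finset.Icc (-(n : ℤ)) n).card : ℝ) * ((8 * |C| + |Real.log m|) / Real.log (6 / 5) * T)
      ≤ 9 * T * ((8 * |C| + |Real.log m|) / Real.log (6 / 5) * T) :=
        mul_le_mul_of_nonneg_right hcard h2
    _ = 9 * ((8 * |C| + |Real.log m|) / Real.log (6 / 5)) * T ^ 2 := by ring

end Pool.Agent.N768.CZ
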